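import Pool.Agent.Helper57.KE.St2

/-!
# Project KF, module POC: the critical inequality
-/

set_option autoImplicit false

namespace Pool.Agent.Helper29.KE

open Pool.Agent.Helper57.KE

private lemma core (s p α β γ w δ : ℝ) (hs0 : 0 < s) (hs1 : s < 1) (hp0 : 0 < p) (hp1 : p < 1)
    (hrel : 2 * p * s = (1 - p) * (1 - s)) (hα : 0 ≤ α) (hβ : 0 ≤ β) (hγ : 0 ≤ γ)
    (hw : 0 < w) (hδ : 0 < δ)
    (c1 : 200 ≤ (1 - p) * α - p ^ 2) (c2 : 200 ≤ 2 * s * α - p * β)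
    (c3 : 200 ≤ 2 * s * β - (1 + p) * γ + s * (1 + p)) (c4 : 200 ≤ 2 * s * γ - s ^ 2)
    (K t : ℝ) (hK : K = α + β + γ) (ht : t = w + δ) (ht1 : t ≤ 1) (ρ : ℝ)
    (hρ : ρ = p * w - s * δ + (α * w ^ 2 + β * δ * w + γ * δ ^ 2)) :
    200 * (w ^ 3 + w ^ 2 * δ + w * δ ^ 2 + δ ^ 3) - (2 * K ^ 2 + 11 * K + 3) * t ^ 4 ≤
      s ^ 2 * δ ^ 2 + (1 + δ) * (p * (w ^ 2 - w ^ 3) + α * (2 * w ^ 3 - 3 * w ^ 4) +
        β * δ * (w ^ 2 - w ^ 3)) - (1 + δ) * ρ ^ 2 - (1 - p) * w * δ -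
        (1 - p) * w * (1 + δ) * (ρ - p * w ^ 2 + p * w ^ 3) := by
  obtain ⟨e, he⟩ : ∃ e, e = α * w ^ 2 + β * δ * w + γ * δ ^ 2 := ⟨_, rfl⟩
  obtain ⟨u, hu⟩ : ∃ u, u = p * w - s * δ := ⟨_, rfl⟩
  have h0 : s ^ 2 * δ ^ 2 + (1 + δ) * (p * (w ^ 2 - w ^ 3) + α * (2 * w ^ 3 - 3 * w ^ 4) +
        β * δ * (w ^ 2 - w ^ 3)) - (1 + δ) * ρ ^ 2 - (1 - p) * w * δ -
        (1 - p) * w * (1 + δ) * (ρ - p * w ^ 2 + p * w ^ 3) =
      ((1 - p) * α - p ^ 2) * w ^ 3 + (2 * s * α - p * β) * (w ^ 2 * δ) +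
      (2 * s * β - (1 + p) * γ + s * (1 + p)) * (w * δ ^ 2) + (2 * s * γ - s ^ 2) * δ ^ 3 +
      (-(3 * (α * w ^ 4)) - β * (δ * w ^ 3) - p * (δ * w ^ 3) + 2 * (α * (δ * w ^ 3)) -
        3 * (α * (δ * w ^ 4)) + β * (δ ^ 2 * w ^ 2) - β * (δ ^ 2 * w ^ 3) - e ^ 2 -
        2 * (δ * u * e) - δ * e ^ 2 - (1 - p) * p * w ^ 4 - (1 - p) * (w * δ * e) +
        (1 - p) * p * (δ * w ^ 3) - (1 - p) * p * (δ * w ^ 4)) := by
    rw [hρ, he, hu]
    linear_combination (w * δ) * hrel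
  rw [h0]
  have hwt : w ≤ t := by linarith
  have hδt : δ ≤ t := by linarith
  have ht0 : 0 < t := by linarith
  have hδ1 : δ ≤ 1 := by linarith
  have hK0 : 0 ≤ K := by linarith
  have hαK : α ≤ K := by linarith
  have hβK : β ≤ K := by linarith
  have hw3 : w ^ 3 ≤ t ^ 3 := pow_le_pow_left₀ hw.le hwt 3
  have b1 : w ^ 4 ≤ t ^ 4 := pow_le_pow_left₀ hw.le hwt 4
  have b2 : δ * w ^ 3 ≤ t ^ 4 := by
    calc δ * w ^ 3 ≤ t * t ^ 3 := mul_le_mul hδt hw3 (by positivity) ht0.le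
      _ = t ^ 4 := by ring
  have b3 : δ * w ^ 4 ≤ t ^ 4 := by
    calc δ * w ^ 4 ≤ 1 * t ^ 4 := mul_le_mul hδ1 b1 (by positivity) zero_le_one
      _ = t ^ 4 := one_mul _
  have b4 : δ ^ 2 * w ^ 3 ≤ t ^ 4 := by
    calc δ ^ 2 * w ^ 3 = δ * (δ * w ^ 3) := by ring
      _ ≤ 1 * t ^ 4 := mul_le_mul hδ1 b2 (by positivity) zero_le_one
      _ = t ^ 4 := one_mul _
  have he0 : 0 ≤ e := by rw [he]; positivity
  have heK : e ≤ K * t ^ 2 := by
    have q1 : w ^ 2 ≤ t ^ 2 := pow_le_pow_left₀ hw.le hwt 2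
    have q2 : δ ^ 2 ≤ t ^ 2 := pow_le_pow_left₀ hδ.le hδt 2
    have q3 : δ * w ≤ t ^ 2 := by
      calc δ * w ≤ t * t := mul_le_mul hδt hwt hw.le ht0.le
        _ = t ^ 2 := by ring
    have r1 := mul_le_mul_of_nonneg_left q1 hα
    have r2 := mul_le_mul_of_nonneg_left q3 hβ
    have r3 := mul_le_mul_of_nonneg_left q2 hγ
    rw [he, hK]
    linarith
  have e2 : e ^ 2 ≤ K ^ 2 * t ^ 4 := by
    calc e ^ 2 ≤ (K * t ^ 2) ^ 2 := pow_le_pow_left₀ he0 heK 2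
      _ = K ^ 2 * t ^ 4 := by ring
  have e3 : δ * e ^ 2 ≤ K ^ 2 * t ^ 4 := by
    calc δ * e ^ 2 ≤ 1 * (K ^ 2 * t ^ 4) := mul_le_mul hδ1 e2 (by positivity) zero_le_one
      _ = _ := one_mul _
  have hut : u ≤ t := by
    have : p * w ≤ 1 * w := mul_le_mul_of_nonneg_right hp1.le hw.le
    have h' : 0 ≤ s * δ := by positivity
    rw [hu]; linarith
  have e4 : δ * u * e ≤ K * t ^ 4 := by
    have h1 : δ * u ≤ t * t := by
      calc δ * u ≤ δ * t := mul_le_mul_of_nonneg_left hut hδ.le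
        _ ≤ t * t := mul_le_mul_of_nonneg_right hδt ht0.le
    calc δ * u * e ≤ t * t * e := mul_le_mul_of_nonneg_right h1 he0
      _ ≤ t * t * (K * t ^ 2) := mul_le_mul_of_nonneg_left heK (by positivity)
      _ = K * t ^ 4 := by ring
  have e5 : w * δ * e ≤ K * t ^ 4 := by
    have h1 : w * δ ≤ t * t := mul_le_mul hwt hδt hδ.le ht0.le
    calc w * δ * e ≤ t * t * e := mul_le_mul_of_nonneg_right h1 he0
      _ ≤ t * t * (K * t ^ 2) := mul_le_mul_of_nonneg_left heK (by positivity)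
      _ = K * t ^ 4 := by ring
  have t4 : 0 < t ^ 4 := by positivity
  have f1 : α * w ^ 4 ≤ K * t ^ 4 := mul_le_mul hαK b1 (by positivity) hK0
  have f2 : β * (δ * w ^ 3) ≤ K * t ^ 4 := mul_le_mul hβK b2 (by positivity) hK0
  have f3 : p * (δ * w ^ 3) ≤ 1 * t ^ 4 := mul_le_mul hp1.le b2 (by positivity) zero_le_one
  have f4 : 0 ≤ α * (δ * w ^ 3) := by positivity
  have f5 : α * (δ * w ^ 4) ≤ K * t ^ 4 := mul_le_mul hαK b3 (by positivity) hK0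
  have f6 : 0 ≤ β * (δ ^ 2 * w ^ 2) := by positivity
  have f7 : β * (δ ^ 2 * w ^ 3) ≤ K * t ^ 4 := mul_le_mul hβK b4 (by positivity) hK0
  have hpp : (1 - p) * p ≤ 1 := by nlinarith
  have hpp0 : 0 ≤ (1 - p) * p := mul_nonneg (by linarith) hp0.le
  have f8 : (1 - p) * p * w ^ 4 ≤ 1 * t ^ 4 := mul_le_mul hpp b1 (by positivity) zero_le_one
  have f9 : (1 - p) * (w * δ * e) ≤ 1 * (K * t ^ 4) :=
    mul_le_mul (by linarith) e5 (by positivity) zero_le_one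
  have f10 : 0 ≤ (1 - p) * p * (δ * w ^ 3) := mul_nonneg hpp0 (by positivity)
  have f11 : (1 - p) * p * (δ * w ^ 4) ≤ 1 * t ^ 4 :=
    mul_le_mul hpp b3 (by positivity) zero_le_one
  have g1 : 200 * w ^ 3 ≤ ((1 - p) * α - p ^ 2) * w ^ 3 :=
    mul_le_mul_of_nonneg_right c1 (by positivity)
  have g2 : 200 * (w ^ 2 * δ) ≤ (2 * s * α - p * β) * (w ^ 2 * δ) :=
    mul_le_mul_of_nonneg_right c2 (by positivity)
  have g3 : 200 * (w * δ ^ 2) ≤ (2 * s * β - (1 + p) * γ + s * (1 + p)) * (w * δ ^ 2) :=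
    mul_le_mul_of_nonneg_right c3 (by positivity)
  have g4 : 200 * δ ^ 3 ≤ (2 * s * γ - s ^ 2) * δ ^ 3 :=
    mul_le_mul_of_nonneg_right c4 (by positivity)
  have expd : (2 * K ^ 2 + 11 * K + 3) * t ^ 4 =
      2 * (K ^ 2 * t ^ 4) + 11 * (K * t ^ 4) + 3 * t ^ 4 := by ring
  rw [expd]
  linarith

private lemma main (s p α β γ w δ : ℝ) (hs0 : 0 < s) (hs1 : s < 1) (hp0 : 0 < p) (hp1 : p < 1)
    (hrel : 2 * p * s = (1 - p) * (1 - s)) (hα : 0 ≤ α) (hβ : 0 ≤ β) (hγ : 8 ≤ γ)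
    (hw : 0 < w) (hδ : 0 < δ)
    (c1 : 200 ≤ (1 - p) * α - p ^ 2) (c2 : 200 ≤ 2 * s * α - p * β)
    (c3 : 200 ≤ 2 * s * β - (1 + p) * γ + s * (1 + p)) (c4 : 200 ≤ 2 * s * γ - s ^ 2)
    (K : ℝ) (hK : K = α + β + γ) (hQ : (2 * K ^ 2 + 11 * K + 4) * (w + δ) ≤ 1)
    (hKδ : K * δ ≤ s / 2) (ρ ρ' w' : ℝ) (hw' : w' * (1 + w) = w)
    (hρ : ρ = p * w - s * δ + (α * w ^ 2 + β * δ * w + γ * δ ^ 2))
    (hρ' : ρ' = p * w' - s * δ + (α * w' ^ 2 + β * δ * w' + γ * δ ^ 2)) :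
    0 < 1 + ρ ∧ 1 + (1 - s) * δ ≤ (1 + δ) * (1 + ρ) ∧
    δ ^ 2 * (1 - s ^ 2) ≤ (1 + δ) ^ 2 - (1 + δ) / (1 + ρ) -
        (1 + (1 - p) * w) * ((1 + δ) * (1 + ρ') - 1) ∧
      (2 * w ≤ s * δ → δ ^ 2 * (1 - s ^ 2) + s * p * δ * w ≤
        (1 + δ) ^ 2 - (1 + δ) / (1 + ρ) - ((1 + δ) * (1 + ρ) - 1)) := by
  have hγ0 : 0 ≤ γ := by linarith
  obtain ⟨t, ht⟩ : ∃ t, t = w + δ := ⟨_, rfl⟩
  rw [← ht] at hQ
  have ht0 : 0 < t := by linarith
  have hK0 : 0 ≤ K := by linarith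
  have hK2 : 0 ≤ 2 * K ^ 2 * t := by positivity
  have hKt0 : 0 ≤ K * t := by positivity
  have hexp : (2 * K ^ 2 + 11 * K + 4) * t = 2 * K ^ 2 * t + 11 * (K * t) + 4 * t := by ring
  rw [hexp] at hQ
  have hKt : K * t ≤ 1 := by linarith
  have ht4 : t ≤ 1 / 4 := by linarith
  have ht1 : t ≤ 1 := by linarith
  have hwt : w ≤ t := by linarith
  have hδt : δ ≤ t := by linarith
  have hC4 : (2 * K ^ 2 + 11 * K + 3) * t ≤ 1 := by
    have : (2 * K ^ 2 + 11 * K + 3) * t = 2 * K ^ 2 * t + 11 * (K * t) + 3 * t := by ring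
    linarith
  obtain ⟨e, he⟩ : ∃ e, e = α * w ^ 2 + β * δ * w + γ * δ ^ 2 := ⟨_, rfl⟩
  have he0 : 0 ≤ e := by rw [he]; positivity
  have heK : e ≤ K * t ^ 2 := by
    have q1 : w ^ 2 ≤ t ^ 2 := pow_le_pow_left₀ hw.le hwt 2
    have q2 : δ ^ 2 ≤ t ^ 2 := pow_le_pow_left₀ hδ.le hδt 2
    have q3 : δ * w ≤ t ^ 2 := by
      calc δ * w ≤ t * t := mul_le_mul hδt hwt hw.le ht0.le
        _ = t ^ 2 := by ring
    have r1 := mul_le_mul_of_nonneg_left q1 hα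
    have r2 := mul_le_mul_of_nonneg_left q3 hβ
    have r3 := mul_le_mul_of_nonneg_left q2 hγ0
    rw [he, hK]
    linarith
  have het : e ≤ t := by
    have : K * t * t ≤ 1 * t := mul_le_mul_of_nonneg_right hKt ht0.le
    have h2 : K * t ^ 2 = K * t * t := by ring
    linarith
  have hpw : p * w ≤ 1 * w := mul_le_mul_of_nonneg_right hp1.le hw.le
  have hpw0 : 0 < p * w := by positivity
  have hsδ : s * δ ≤ 1 * δ := mul_le_mul_of_nonneg_right hs1.le hδ.le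
  have hsδ0 : 0 < s * δ := by positivity
  rw [← he] at hρ
  have hρu : ρ ≤ 2 * t := by rw [hρ]; linarith
  have hρl : -(2 * t) ≤ ρ := by rw [hρ]; linarith
  have hρl1 : -t ≤ ρ := by rw [hρ]; linarith
  have h1ρ : 1 / 2 ≤ 1 + ρ := by linarith
  have h1ρ0 : 0 < 1 + ρ := by linarith
  refine ⟨h1ρ0, ?_, ?_, ?_⟩
  · -- (2)
    have h1 : 1 - s * δ + γ * δ ^ 2 ≤ 1 + ρ := by
      have h2 : 0 ≤ α * w ^ 2 := by positivity
      have h3 : 0 ≤ β * δ * w := by positivity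
      rw [hρ, he]; linarith
    have h2 : (1 + δ) * (1 - s * δ + γ * δ ^ 2) ≤ (1 + δ) * (1 + ρ) :=
      mul_le_mul_of_nonneg_left h1 (by linarith)
    have h3 : (1 + δ) * (1 - s * δ + γ * δ ^ 2) =
        1 + (1 - s) * δ + (γ - s) * δ ^ 2 + γ * δ ^ 3 := by ring
    have h4 : 0 ≤ (γ - s) * δ ^ 2 := mul_nonneg (by linarith) (by positivity)
    have h5 : 0 ≤ γ * δ ^ 3 := by positivity
    linarith
  · -- (3)
    have hcore := core s p α β γ w δ hs0 hs1 hp0 hp1 hrel hα hβ hγ0 hw hδ c1 c2 c3 c4 K t hK ht ht1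
      ρ (by rw [hρ, he])
    have hinv : 1 / (1 + ρ) ≤ 1 - ρ + ρ ^ 2 + 16 * t ^ 3 := by
      rw [div_le_iff₀ h1ρ0]
      have h1 : (-(2 * t)) ^ 3 ≤ ρ ^ 3 := by
        have hodd : Odd 3 := by decide
        exact hodd.pow_le_pow.2 hρl
      have h2 : 16 * t ^ 3 * (1 / 2) ≤ 16 * t ^ 3 * (1 + ρ) :=
        mul_le_mul_of_nonneg_left h1ρ (by positivity)
      have h3 : (1 - ρ + ρ ^ 2 + 16 * t ^ 3) * (1 + ρ) = 1 + ρ ^ 3 + 16 * t ^ 3 * (1 + ρ) := by ring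
      have h4 : (-(2 * t)) ^ 3 = -(8 * t ^ 3) := by ring
      rw [h3]
      linarith
    -- the difference of the ratios
    have hw1 : w ≤ 1 / 4 := by linarith
    have hw'0 : 0 ≤ w' := by
      by_contra hneg
      push Not at hneg
      have : w' * (1 + w) < 0 := mul_neg_of_neg_of_pos hneg (by linarith)
      linarith
    obtain ⟨d, hd⟩ : ∃ d, d = w - w' := ⟨_, rfl⟩
    have hdd : d * (1 + w) = w ^ 2 := by rw [hd]; linear_combination (-1 : ℝ) * hw'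
    have hd0 : 0 ≤ d := by
      by_contra hneg
      push Not at hneg
      have : d * (1 + w) < 0 := mul_neg_of_neg_of_pos hneg (by linarith)
      have := sq_nonneg w
      linarith
    have hdw : d ≤ w ^ 2 := by
      have : 0 ≤ d * w := by positivity
      linarith
    have hdl : w ^ 2 - w ^ 3 ≤ d := by
      have h1 : d * w ≤ w ^ 2 * w := mul_le_mul_of_nonneg_right hdw hw.le
      have h2 : w ^ 2 * w = w ^ 3 := by ring
      linarith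
    have hw23 : 0 ≤ w ^ 2 - w ^ 3 := by
      have : w ^ 2 - w ^ 3 = w ^ 2 * (1 - w) := by ring
      rw [this]
      exact mul_nonneg (by positivity) (by linarith)
    have hsum : 2 * w ^ 3 - 3 * w ^ 4 ≤ w ^ 2 - w' ^ 2 := by
      have h1 : w ^ 2 - w' ^ 2 = d * (2 * w - d) := by rw [hd]; ring
      have h2 : 2 * w - w ^ 2 ≤ 2 * w - d := by linarith
      have h3 : 0 ≤ 2 * w - w ^ 2 := by nlinarith
      have h4 : (w ^ 2 - w ^ 3) * (2 * w - w ^ 2) ≤ d * (2 * w - d) :=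
        mul_le_mul hdl h2 h3 hd0
      have h5 : (w ^ 2 - w ^ 3) * (2 * w - w ^ 2) = 2 * w ^ 3 - 3 * w ^ 4 + w ^ 5 := by ring
      have h6 : 0 < w ^ 5 := by positivity
      rw [h1]
      linarith
    obtain ⟨X, hX⟩ : ∃ X, X = p * (w ^ 2 - w ^ 3) + α * (2 * w ^ 3 - 3 * w ^ 4) +
        β * δ * (w ^ 2 - w ^ 3) := ⟨_, rfl⟩
    have hρX : ρ' ≤ ρ - X := by
      have h1 : p * (w ^ 2 - w ^ 3) ≤ p * d := mul_le_mul_of_nonneg_left hdl hp0.le
      have h2 : α * (2 * w ^ 3 - 3 * w ^ 4) ≤ α * (w ^ 2 - w' ^ 2) :=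
        mul_le_mul_of_nonneg_left hsum hα
      have h3 : β * δ * (w ^ 2 - w ^ 3) ≤ β * δ * d :=
        mul_le_mul_of_nonneg_left hdl (by positivity)
      have h4 : ρ - ρ' = p * d + α * (w ^ 2 - w' ^ 2) + β * δ * d := by
        rw [hρ, hρ', he, hd]; ring
      rw [hX]
      linarith
    have hρp : ρ' ≤ ρ - p * w ^ 2 + p * w ^ 3 := by
      have h1 : 0 ≤ α * (2 * w ^ 3 - 3 * w ^ 4) := by
        have : 2 * w ^ 3 - 3 * w ^ 4 = w ^ 3 * (2 - 3 * w) := by ring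
        rw [this]
        exact mul_nonneg hα (mul_nonneg (by positivity) (by linarith))
      have h2 : 0 ≤ β * δ * (w ^ 2 - w ^ 3) := mul_nonneg (by positivity) hw23
      rw [hX] at hρX
      linarith
    rw [← hX] at hcore
    have m1 : (1 + δ) * (1 / (1 + ρ)) ≤ (1 + δ) * (1 - ρ + ρ ^ 2 + 16 * t ^ 3) :=
      mul_le_mul_of_nonneg_left hinv (by linarith)
    have m2 : (1 + δ) * ρ' ≤ (1 + δ) * (ρ - X) := mul_le_mul_of_nonneg_left hρX (by linarith)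
    have m3 : (1 - p) * w * (1 + δ) * ρ' ≤ (1 - p) * w * (1 + δ) * (ρ - p * w ^ 2 + p * w ^ 3) :=
      mul_le_mul_of_nonneg_left hρp
        (mul_nonneg (mul_nonneg (by linarith) hw.le) (by linarith))
    have m4 : δ * (16 * t ^ 3) ≤ 1 * (16 * t ^ 3) :=
      mul_le_mul_of_nonneg_right (by linarith) (by positivity)
    have m5 : (2 * K ^ 2 + 11 * K + 3) * t * t ^ 3 ≤ 1 * t ^ 3 :=
      mul_le_mul_of_nonneg_right hC4 (by positivity)
    have m6 : (2 * K ^ 2 + 11 * K + 3) * t ^ 4 = (2 * K ^ 2 + 11 * K + 3) * t * t ^ 3 := by ring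
    have m7 : t ^ 3 ≤ 3 * (w ^ 3 + w ^ 2 * δ + w * δ ^ 2 + δ ^ 3) := by
      have h1 : 0 < w ^ 3 := by positivity
      have h2 : 0 < δ ^ 3 := by positivity
      have h3 : t ^ 3 = w ^ 3 + 3 * (w ^ 2 * δ) + 3 * (w * δ ^ 2) + δ ^ 3 := by rw [ht]; ring
      rw [h3]
      linarith
    have m8 : 0 < t ^ 3 := by positivity
    have e1 : (1 + δ) / (1 + ρ) = (1 + δ) * (1 / (1 + ρ)) := by ring
    have e2 : (1 + (1 - p) * w) * ((1 + δ) * (1 + ρ') - 1) =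
        δ + (1 + δ) * ρ' + (1 - p) * w * δ + (1 - p) * w * (1 + δ) * ρ' := by ring
    have e3 : (1 + δ) * (1 - ρ + ρ ^ 2 + 16 * t ^ 3) =
        (1 + δ) - (1 + δ) * ρ + (1 + δ) * ρ ^ 2 + 16 * t ^ 3 + δ * (16 * t ^ 3) := by ring
    have e4 : (1 + δ) * (ρ - X) = (1 + δ) * ρ - (1 + δ) * X := by ring
    rw [e1, e2]
    rw [m6] at hcore
    nlinarith
  · -- (4)
    intro hwδ
    have hA0 : s * δ / 2 ≤ s * δ - p * w := by linarith
    obtain ⟨A, hA⟩ : ∃ A, A = s * δ - p * w := ⟨_, rfl⟩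
    rw [← hA] at hA0
    have hwd : w ≤ δ := by linarith
    have heδ : e ≤ K * δ * δ := by
      have q1 : w ^ 2 ≤ δ ^ 2 := pow_le_pow_left₀ hw.le hwd 2
      have q3 : δ * w ≤ δ ^ 2 := by
        calc δ * w ≤ δ * δ := mul_le_mul_of_nonneg_left hwd hδ.le
          _ = δ ^ 2 := by ring
      have r1 := mul_le_mul_of_nonneg_left q1 hα
      have r2 := mul_le_mul_of_nonneg_left q3 hβ
      rw [he, hK]
      linarith
    have heA : e ≤ A := by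
      have : K * δ * δ ≤ s / 2 * δ := mul_le_mul_of_nonneg_right hKδ hδ.le
      linarith
    have hρA : ρ = -(A - e) := by rw [hρ, hA]; ring
    have hA1 : 0 < A := by linarith
    have heγ : γ * δ ^ 2 ≤ e := by
      have h2 : 0 ≤ α * w ^ 2 := by positivity
      have h3 : 0 ≤ β * δ * w := by positivity
      rw [he]; linarith
    have hAe : s * δ / 2 * (γ * δ ^ 2) ≤ A * e :=
      mul_le_mul hA0 heγ (by positivity) hA1.le
    have hee : e * e ≤ A * e := mul_le_mul_of_nonneg_right heA he0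
    have hρ2 : ρ ^ 2 ≤ A ^ 2 - s * δ / 2 * (γ * δ ^ 2) := by
      have : ρ ^ 2 = A ^ 2 - 2 * (A * e) + e * e := by rw [hρA]; ring
      linarith
    have hA2 : A ^ 2 ≤ s ^ 2 * δ ^ 2 - s * p * δ * w := by
      have h1 : p * w * (p * w) ≤ s * δ * (p * w) := by
        apply mul_le_mul_of_nonneg_right _ hpw0.le
        linarith
      have h2 : A ^ 2 = s ^ 2 * δ ^ 2 - 2 * (s * p * δ * w) + p * w * (p * w) := by rw [hA]; ring
      have h3 : s * δ * (p * w) = s * p * δ * w := by ring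
      linarith
    have hA3 : A ^ 2 ≤ s ^ 2 * δ ^ 2 := by
      have : 0 < s * p * δ * w := by positivity
      linarith
    have hρ3 : ρ ^ 2 ≤ s ^ 2 * δ ^ 2 := by
      have : 0 ≤ s * δ / 2 * (γ * δ ^ 2) := by positivity
      linarith
    have hquot : (1 + δ) / (1 + ρ) ≤ 1 + 4 * δ := by
      rw [div_le_iff₀ h1ρ0]
      have h1 : -δ ≤ ρ := by rw [hρA]; linarith
      have h2 : (1 + 4 * δ) * (1 - δ) ≤ (1 + 4 * δ) * (1 + ρ) :=
        mul_le_mul_of_nonneg_left (by linarith) (by linarith)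
      have h3 : (1 + 4 * δ) * (1 - δ) = 1 + δ + 2 * δ * (1 - 2 * δ) := by ring
      have h4 : 0 ≤ 2 * δ * (1 - 2 * δ) := mul_nonneg (by linarith) (by linarith)
      linarith
    have hfin : (1 + δ) / (1 + ρ) * ρ ^ 2 ≤ s ^ 2 * δ ^ 2 - s * p * δ * w := by
      have h1 : (1 + δ) / (1 + ρ) * ρ ^ 2 ≤ (1 + 4 * δ) * ρ ^ 2 :=
        mul_le_mul_of_nonneg_right hquot (sq_nonneg _)
      have h2 : 4 * δ * ρ ^ 2 ≤ 4 * δ * (s ^ 2 * δ ^ 2) :=
        mul_le_mul_of_nonneg_left hρ3 (by linarith)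
      have h3 : 4 * δ * (s ^ 2 * δ ^ 2) ≤ s * δ / 2 * (γ * δ ^ 2) := by
        have h4 : 8 * s ≤ γ := by linarith
        have h5 : s * δ ^ 3 / 2 * (8 * s) ≤ s * δ ^ 3 / 2 * γ :=
          mul_le_mul_of_nonneg_left h4 (by positivity)
        have h6 : 4 * δ * (s ^ 2 * δ ^ 2) = s * δ ^ 3 / 2 * (8 * s) := by ring
        have h7 : s * δ / 2 * (γ * δ ^ 2) = s * δ ^ 3 / 2 * γ := by ring
        rw [h6, h7]
        exact h5
      have h8 : (1 + 4 * δ) * ρ ^ 2 = ρ ^ 2 + 4 * δ * ρ ^ 2 := by ring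
      linarith
    have hid : (1 + δ) ^ 2 - (1 + δ) / (1 + ρ) - ((1 + δ) * (1 + ρ) - 1) =
        δ ^ 2 - (1 + δ) / (1 + ρ) * ρ ^ 2 := by
      field_simp
      ring
    rw [hid]
    linarith

theorem hPOC : StPOC := by
  intro c hc
  have hc2 : (1 : ℝ) < c ^ 2 := by nlinarith
  have hq0 : 0 < 1 - 1 / c ^ 2 := by
    have : 1 / c ^ 2 < 1 := by
      rw [div_lt_one (by linarith)]
      exact hc2
    linarith
  have hq1 : 1 - 1 / c ^ 2 < 1 := by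
    have : 0 < 1 / c ^ 2 := by positivity
    linarith
  obtain ⟨s, hs⟩ : ∃ s, s = ss c := ⟨_, rfl⟩
  have hs0 : 0 < s := by rw [hs]; exact Real.sqrt_pos.2 hq0
  have hs1 : s < 1 := by
    rw [hs]
    unfold ss
    rw [Real.sqrt_lt' one_pos]
    linarith
  have hss : s ^ 2 = 1 - 1 / c ^ 2 := by
    rw [hs]
    exact Real.sq_sqrt hq0.le
  obtain ⟨p, hp⟩ : ∃ p, p = pp c := ⟨_, rfl⟩
  have hpd : p = (1 - s) / (1 + s) := by rw [hp, hs]; rfl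
  have hp0 : 0 < p := by rw [hpd]; exact div_pos (by linarith) (by linarith)
  have hp1 : p < 1 := by
    rw [hpd, div_lt_one (by linarith)]
    linarith
  have hrel : 2 * p * s = (1 - p) * (1 - s) := by
    rw [hpd]
    have : (1 + s) ≠ 0 := by linarith
    field_simp
    ring
  rw [← hs, ← hp]
  obtain ⟨γ, hγ⟩ : ∃ γ, γ = (200 + s ^ 2) / (2 * s) + 8 := ⟨_, rfl⟩
  have hγ8 : 8 ≤ γ := by
    rw [hγ]
    have : 0 < (200 + s ^ 2) / (2 * s) := by positivity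
    linarith
  obtain ⟨β, hβ⟩ : ∃ β, β = (200 + (1 + p) * γ) / (2 * s) := ⟨_, rfl⟩
  have hβ0 : 0 ≤ β := by rw [hβ]; positivity
  obtain ⟨α, hα⟩ : ∃ α, α = (200 + p * β) / (2 * s) + (200 + p ^ 2) / (1 - p) := ⟨_, rfl⟩
  have h1p : 0 < 1 - p := by linarith
  have hα0 : 0 ≤ α := by rw [hα]; positivity
  have c4 : 200 ≤ 2 * s * γ - s ^ 2 := by
    have : 2 * s * γ = 200 + s ^ 2 + 16 * s := by rw [hγ]; field_simp; ring
    rw [this]
    linarith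
  have c3 : 200 ≤ 2 * s * β - (1 + p) * γ + s * (1 + p) := by
    have : 2 * s * β = 200 + (1 + p) * γ := by rw [hβ]; field_simp
    rw [this]
    have : 0 < s * (1 + p) := by positivity
    linarith
  have c2 : 200 ≤ 2 * s * α - p * β := by
    have h1 : 2 * s * α = 200 + p * β + 2 * s * ((200 + p ^ 2) / (1 - p)) := by
      rw [hα]; field_simp
    rw [h1]
    have : 0 < 2 * s * ((200 + p ^ 2) / (1 - p)) := by positivity
    linarith
  have c1 : 200 ≤ (1 - p) * α - p ^ 2 := by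
    have h1 : (1 - p) * α = (1 - p) * ((200 + p * β) / (2 * s)) + (200 + p ^ 2) := by
      rw [hα]; field_simp
    rw [h1]
    have : 0 ≤ (1 - p) * ((200 + p * β) / (2 * s)) := by positivity
    linarith
  obtain ⟨K, hK⟩ : ∃ K, K = α + β + γ := ⟨_, rfl⟩
  have hK0 : 0 ≤ K := by linarith
  obtain ⟨Q, hQ⟩ : ∃ Q, Q = 2 * K ^ 2 + 11 * K + 4 := ⟨_, rfl⟩
  have hQ4 : 4 ≤ Q := by
    have : 0 ≤ 2 * K ^ 2 := by positivity
    linarith
  obtain ⟨δ1, hδ1⟩ : ∃ δ1, δ1 = min (1 / (2 * Q)) (s / (2 * (K + 1))) := ⟨_, rfl⟩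
  have hδ10 : 0 < δ1 := by rw [hδ1]; exact lt_min (by positivity) (by positivity)
  have hδ1a : δ1 ≤ 1 / (2 * Q) := by rw [hδ1]; exact min_le_left _ _
  have hδ1b : δ1 ≤ s / (2 * (K + 1)) := by rw [hδ1]; exact min_le_right _ _
  have hδ11 : δ1 ≤ 1 := by
    refine hδ1a.trans ?_
    rw [div_le_one (by positivity)]
    linarith
  refine ⟨α, β, γ, δ1, max 2 ⌈2 * Q⌉₊, hα0, hβ0, by linarith, hδ10, hδ11, le_max_left _ _,
    fun x δ hx hδ0 hδ => ?_⟩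
  have hxQ : 2 * Q ≤ x := by
    refine le_trans (Nat.le_ceil _) (le_trans ?_ hx)
    exact_mod_cast le_max_right 2 ⌈2 * Q⌉₊
  have hx0 : 0 < x := by linarith
  obtain ⟨w, hw⟩ : ∃ w, w = 1 / x := ⟨_, rfl⟩
  obtain ⟨w', hw'⟩ : ∃ w', w' = 1 / (x + 1) := ⟨_, rfl⟩
  have hw0 : 0 < w := by rw [hw]; positivity
  have hwQ : w * (2 * Q) ≤ 1 := by
    rw [hw, one_div_mul_eq_div, div_le_one hx0]
    exact hxQ
  have hδQ : δ * (2 * Q) ≤ 1 := by
    have h := hδ.trans hδ1a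
    rwa [le_div_iff₀ (by positivity)] at h
  have hsum : (2 * K ^ 2 + 11 * K + 4) * (w + δ) ≤ 1 := by
    rw [← hQ]
    linarith
  have hKδ : K * δ ≤ s / 2 := by
    have h := hδ.trans hδ1b
    rw [le_div_iff₀ (by positivity)] at h
    linarith
  have hww : w' * (1 + w) = w := by
    rw [hw, hw']
    field_simp
  obtain ⟨ρ, hρ⟩ : ∃ ρ, ρ = p * w - s * δ + (α * w ^ 2 + β * δ * w + γ * δ ^ 2) := ⟨_, rfl⟩
  obtain ⟨ρ', hρ'⟩ : ∃ ρ', ρ' = p * w' - s * δ + (α * w' ^ 2 + β * δ * w' + γ * δ ^ 2) := ⟨_, rfl⟩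
  have hm := main s p α β γ w δ hs0 hs1 hp0 hp1 hrel hα0 hβ0 hγ8 hw0 hδ0 c1 c2 c3 c4 K hK hsum hKδ
    ρ ρ' w' hww hρ hρ'
  have r1 : rr s p α β γ δ x = 1 + ρ := by
    unfold rr
    rw [hρ, hw]
    ring
  have r2 : rr s p α β γ δ (x + 1) = 1 + ρ' := by
    have hx1 : (x + 1) ≠ 0 := by linarith
    unfold rr
    rw [hρ', hw']
    field_simp
    ring
  have r3 : δ ^ 2 / c ^ 2 = δ ^ 2 * (1 - s ^ 2) := by
    rw [hss]
    ring
  have r4 : (1 - p) / x = (1 - p) * w := by rw [hw]; ring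
  have r5 : s * p * δ / x = s * p * δ * w := by rw [hw]; ring
  rw [r1, r2, r3, r4, r5]
  obtain ⟨m1, m2, m3, m4⟩ := hm
  refine ⟨m1, m2, m3, fun h => m4 ?_⟩
  rw [div_le_iff₀ (by positivity)] at h
  have : 2 * w = 2 / x := by rw [hw]; ring
  rw [this, div_le_iff₀ hx0]
  linarith

end Pool.Agent.Helper29.KE
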